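import Pool.Agent.Helper64.DC.Stokes

/-!
Stokes' theorem for square integrable families on a covering of a closed manifold.
-/

set_option autoImplicit false

open MeasureTheory Set Filter
open scoped Topology ContDiff Manifold

noncomputable section

namespace Pool.Agent.Helper81.UC

open Pool.Agent.Helper64.DC

/-- integrals of continuous families of linear forms with compact support -/
lemma summ {S : Type} {U K : Set E4} (hU : IsOpen U) (hK : IsCompact K) (hKU : K ⊆ U)
    (L : E4 → E4 →L[ℝ] ℝ) (hL : ContinuousOn L U) (hL0 : ∀ y ∈ U \ K, L y = 0)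
    (W : S → E4 → E4) (hW : ∀ x, ContinuousOn (W x) U)
    (hs : Summable fun x => ∫ y in K, ‖W x y‖) {T : Set E4} (hTU : T ⊆ U) :
    (∀ x, IntegrableOn (fun y => L y (W x y)) T) ∧
      Summable fun x => ∫ y in T, ‖L y (W x y)‖ := by
  have hcont : ∀ x, ContinuousOn (fun y => L y (W x y)) U := fun x => hL.clm_apply (hW x)
  have hint : ∀ x, IntegrableOn (fun y => L y (W x y)) U := fun x =>
    integrableOn_of_zero hU hK hKU (hcont x) fun y hy => by rw [hL0 y hy]; rfl
  refine ⟨fun x => (hint x).mono_set hTU, ?_⟩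
  obtain ⟨C, hC⟩ := hK.exists_bound_of_continuousOn (hL.mono hKU)
  refine Summable.of_nonneg_of_le (fun x => integral_nonneg fun y => norm_nonneg _) (fun x => ?_)
    (hs.mul_left C)
  have h1 : ∫ y in T, ‖L y (W x y)‖ ≤ ∫ y in U, ‖L y (W x y)‖ :=
    setIntegral_mono_set (hint x).norm (Eventually.of_forall fun y => norm_nonneg _)
      (LE.le.eventuallyLE hTU)
  have h2 : ∫ y in U, ‖L y (W x y)‖ = ∫ y in K, ‖L y (W x y)‖ :=
    setIntegral_eq_of_subset_of_forall_sdiff_eq_zero hU.measurableSet hKU fun y hy => by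
      rw [hL0 y hy]; simp
  have h3 : ∫ y in K, ‖L y (W x y)‖ ≤ ∫ y in K, C * ‖W x y‖ := by
    refine setIntegral_mono_on ((hint x).mono_set hKU).norm ?_ hK.measurableSet fun y hy => ?_
    · exact (((hW x).mono hKU).norm.integrableOn_compact hK).const_mul C
    · exact (L y).le_of_opNorm_le (hC y hy) _
  rw [integral_const_mul] at h3
  exact h1.trans (h2.le.trans h3)

section Manifold

variable {X : Type} [TopologicalSpace X] [CompactSpace X] [ChartedSpace E4 X]
  [IsManifold 𝓘(ℝ, E4) ∞ X]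

variable {ι : Type} (c : ι → OpenPartialHomeomorph X E4)
    (hc : ∀ i, c i ∈ IsManifold.maximalAtlas 𝓘(ℝ, E4) ∞ X)
    (ρ : ι → X → ℝ) (hρ : ∀ i, ContMDiff 𝓘(ℝ, E4) 𝓘(ℝ, ℝ) ∞ (ρ i))
    (hρs : ∀ i, tsupport (ρ i) ⊆ (c i).source)
    {S : Type} [Countable S] (σ : ι → ι → E4 → Equiv.Perm S)
    (W : ι → S → E4 → E4) (hW : ∀ i x, ContDiffOn ℝ 1 (W i x) (c i).target)
    (hcompat : ∀ i j, ∀ y ∈ (c j).target, (c j).symm y ∈ (c i).source →
      0 < (fderiv ℝ (c i ∘ (c j).symm) y).det ∧ ∀ x,
      fderiv ℝ (c i ∘ (c j).symm) y (W j x y)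
        = (fderiv ℝ (c i ∘ (c j).symm) y).det • W i (σ i j y x) (c i ((c j).symm y)))
    (hsum : ∀ i, ∀ K ⊆ (c i).target, IsCompact K → Summable fun x => ∫ y in K, ‖W i x y‖)

omit [Countable S] in
include hc hρ hρs hW hsum in
/-- summands in the chart `i` -/
lemma summ_psi (i k : ι) {T : Set E4} (hT : T ⊆ (c i).target) :
    (∀ x, IntegrableOn (fun y => ρ k ((c i).symm y) *
      fderiv ℝ (fun z => ρ i ((c i).symm z)) y (W i x y)) T) ∧
    Summable fun x => ∫ y in T, ‖ρ k ((c i).symm y) *
      fderiv ℝ (fun z => ρ i ((c i).symm z)) y (W i x y)‖ := by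
  have hr : ContinuousOn (fun y => ρ k ((c i).symm y)) (c i).target :=
    (contDiffOn_symm (hc i) (hρ k)).continuousOn
  have h1 : ContDiffOn ℝ 1 (fun z => ρ i ((c i).symm z)) (c i).target :=
    (contDiffOn_symm (hc i) (hρ i)).of_le (by norm_num)
  exact summ (c i).open_target (isCompact_K c ρ hρs i) (K_subset c ρ hρs i)
    (fun y => ρ k ((c i).symm y) • fderiv ℝ (fun z => ρ i ((c i).symm z)) y)
    (hr.smul (h1.continuousOn_fderiv_of_isOpen (c i).open_target le_rfl))
    (fun y hy => by
      rw [fderiv_zero c ρ hy.1 (notMem_tsupport_of_notMem c ρ hy.1 hy.2), smul_zero])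
    (W i) (fun x => (hW i x).continuousOn) (hsum i _ (K_subset c ρ hρs i) (isCompact_K c ρ hρs i))
    hT

omit [Countable S] in
include hc hρ hρs hW hsum in
/-- summands in the chart `k` -/
lemma summ_phi (i k : ι) {T : Set E4} (hT : T ⊆ (c k).target) :
    (∀ x, IntegrableOn (fun y => ρ k ((c k).symm y) *
      fderiv ℝ (fun z => ρ i ((c k).symm z)) y (W k x y)) T) ∧
    Summable fun x => ∫ y in T, ‖ρ k ((c k).symm y) *
      fderiv ℝ (fun z => ρ i ((c k).symm z)) y (W k x y)‖ := by
  have hr : ContinuousOn (fun y => ρ k ((c k).symm y)) (c k).target :=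
    (contDiffOn_symm (hc k) (hρ k)).continuousOn
  have h1 : ContDiffOn ℝ 1 (fun z => ρ i ((c k).symm z)) (c k).target :=
    (contDiffOn_symm (hc k) (hρ i)).of_le (by norm_num)
  exact summ (c k).open_target (isCompact_K c ρ hρs k) (K_subset c ρ hρs k)
    (fun y => ρ k ((c k).symm y) • fderiv ℝ (fun z => ρ i ((c k).symm z)) y)
    (hr.smul (h1.continuousOn_fderiv_of_isOpen (c k).open_target le_rfl))
    (fun y hy => by
      have : ρ k ((c k).symm y) = 0 :=
        image_eq_zero_of_notMem_tsupport (f := ρ k) (notMem_tsupport_of_notMem c ρ hy.1 hy.2)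
      rw [this, zero_smul])
    (W k) (fun x => (hW k x).continuousOn) (hsum k _ (K_subset c ρ hρs k) (isCompact_K c ρ hρs k))
    hT

include hc hρ hρs hW hsum hcompat in
lemma swap_cov (i k : ι) :
    ∑' x, Psi c (fun i => W i x) ρ i k = ∑' x, Phi c (fun i => W i x) ρ i k := by
  unfold Psi Phi
  set V : Set E4 := ((c i).symm.trans (c k)).source with hV
  set V' : Set E4 := ((c i).symm.trans (c k)).target with hV'
  have hVo : IsOpen V := ((c i).symm.trans (c k)).open_source
  have hVo' : IsOpen V' := ((c i).symm.trans (c k)).open_target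
  have hVsub : V ⊆ (c i).target := fun y hy => hy.1
  have hV'sub : V' ⊆ (c k).target := fun y hy => hy.1
  have hV'mem : ∀ y ∈ (c k).target, (c k).symm y ∈ (c i).source → y ∈ V' := by
    intro y hy hx
    exact ⟨hy, hx⟩
  -- restrict both sides
  have hL : ∀ x, ∫ y in (c i).target,
      ρ k ((c i).symm y) * fderiv ℝ (fun z => ρ i ((c i).symm z)) y (W i x y)
      = ∫ y in V, ρ k ((c i).symm y) * fderiv ℝ (fun z => ρ i ((c i).symm z)) y (W i x y) := by
    intro x
    refine setIntegral_eq_of_subset_of_forall_sdiff_eq_zero (c i).open_target.measurableSet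
      hVsub ?_
    intro y hy
    have hx : (c i).symm y ∉ (c k).source := fun h => hy.2 ⟨hy.1, h⟩
    have : ρ k ((c i).symm y) = 0 :=
      image_eq_zero_of_notMem_tsupport (f := ρ k) (fun h => hx (hρs k h))
    rw [this, zero_mul]
  have hR : ∀ x, ∫ y in (c k).target,
      ρ k ((c k).symm y) * fderiv ℝ (fun z => ρ i ((c k).symm z)) y (W k x y)
      = ∫ y in V', ρ k ((c k).symm y) * fderiv ℝ (fun z => ρ i ((c k).symm z)) y (W k x y) := by
    intro x
    refine setIntegral_eq_of_subset_of_forall_sdiff_eq_zero (c k).open_target.measurableSet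
      hV'sub ?_
    intro y hy
    have hx : (c k).symm y ∉ tsupport (ρ i) := fun h => hy.2 (hV'mem y hy.1 (hρs i h))
    rw [fderiv_zero c ρ hy.1 hx]
    simp
  rw [tsum_congr hL, tsum_congr hR]
  have hP := summ_psi c hc ρ hρ hρs W hW hsum i k hVsub
  have hQ := summ_phi c hc ρ hρ hρs W hW hsum i k hV'sub
  rw [integral_tsum_of_summable_integral_norm hP.1 hP.2,
    integral_tsum_of_summable_integral_norm hQ.1 hQ.2]
  -- the transition map
  set τ : E4 → E4 := c k ∘ (c i).symm with hτ
  have hτC : ContDiffOn ℝ ∞ τ V := contDiffOn_trans (hc i) (hc k)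
  have himg : τ '' V = V' := by
    exact ((c i).symm.trans (c k)).image_source_eq_target
  have hinj : InjOn τ V := ((c i).symm.trans (c k)).injOn
  have hτd : ∀ y ∈ V, DifferentiableAt ℝ τ y := fun y hy =>
    (hτC.contDiffAt (hVo.mem_nhds hy)).differentiableAt (by simp)
  rw [← himg, integral_image_eq_integral_abs_det_fderiv_smul volume hVo.measurableSet
    (fun y hy => (hτd y hy).hasFDerivAt.hasFDerivWithinAt) hinj]
  refine setIntegral_congr_fun hVo.measurableSet ?_
  intro y hy
  have hyi : y ∈ (c i).target := hy.1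
  have hxk : (c i).symm y ∈ (c k).source := hy.2
  obtain ⟨hdet, hWt⟩ := hcompat k i y hyi hxk
  have hτy : τ y = c k ((c i).symm y) := rfl
  have hinv : (c k).symm (τ y) = (c i).symm y := (c k).left_inv hxk
  have hτyt : τ y ∈ (c k).target := (c k).map_source hxk
  have hchain : fderiv ℝ (fun z => ρ i ((c i).symm z)) y
      = (fderiv ℝ (fun z => ρ i ((c k).symm z)) (τ y)).comp (fderiv ℝ τ y) := by
    have heq : (fun z => ρ i ((c i).symm z)) =ᶠ[𝓝 y] (fun z => ρ i ((c k).symm z)) ∘ τ := by
      filter_upwards [hVo.mem_nhds hy] with z hz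
      show ρ i ((c i).symm z) = ρ i ((c k).symm (c k ((c i).symm z)))
      have hz2 : (c i).symm z ∈ (c k).source := hz.2
      rw [(c k).left_inv hz2]
    rw [heq.fderiv_eq, fderiv_comp]
    · exact ((contDiffOn_symm (hc k) (hρ i)).contDiffAt
        ((c k).open_target.mem_nhds hτyt)).differentiableAt (by simp)
    · exact hτd y hy
  show ∑' x, ρ k ((c i).symm y) * fderiv ℝ (fun z => ρ i ((c i).symm z)) y (W i x y)
    = |(fderiv ℝ τ y).det| • ∑' x, (ρ k ((c k).symm (τ y))
      * fderiv ℝ (fun z => ρ i ((c k).symm z)) (τ y) (W k x (τ y)))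
  rw [← tsum_const_smul'', ← (σ k i y).tsum_eq fun x => |(fderiv ℝ τ y).det| •
    (ρ k ((c k).symm (τ y)) * fderiv ℝ (fun z => ρ i ((c k).symm z)) (τ y) (W k x (τ y)))]
  refine tsum_congr fun x => ?_
  rw [hchain, ContinuousLinearMap.comp_apply, hWt x, map_smul, hinv, abs_of_pos hdet, ← hτy]
  simp only [smul_eq_mul]
  ring

include hc hρ hρs hW hsum hcompat in
theorem core_aux [Fintype ι] (hρ1 : ∀ x, ∑ i, ρ i x = 1) :
    (∀ i, Summable fun x => ∫ y in (c i).target, ρ i ((c i).symm y) * dvg (W i x) y) ∧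
    ∑ i, ∑' x, ∫ y in (c i).target, ρ i ((c i).symm y) * dvg (W i x) y = 0 := by
  have hS1 : ∀ i k, Summable fun x => Psi c (fun i => W i x) ρ i k := by
    intro i k
    have hP := summ_psi c hc ρ hρ hρs W hW hsum i k (subset_refl (c i).target)
    exact Summable.of_norm_bounded hP.2 fun x => norm_integral_le_integral_norm _
  have hS2 : ∀ i k, Summable fun x => Phi c (fun i => W i x) ρ i k := by
    intro i k
    have hP := summ_phi c hc ρ hρ hρs W hW hsum i k (subset_refl (c k).target)
    exact Summable.of_norm_bounded hP.2 fun x => norm_integral_le_integral_norm _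
  have h1 : ∀ i x, ∫ y in (c i).target, ρ i ((c i).symm y) * dvg (W i x) y
      = - ∑ k, Psi c (fun i => W i x) ρ i k := by
    intro i x
    have hP := fun k => (summ_psi c hc ρ hρ hρs W hW hsum i k (subset_refl (c i).target)).1 x
    have h0 := chart_div c hc (fun i => W i x) (fun i => hW i x) ρ hρ hρs i
    rw [h0]
    unfold Psi
    rw [← integral_finsetSum _ (fun k _ => hP k)]
    congr 1
    refine setIntegral_congr_fun (c i).open_target.measurableSet ?_
    intro y _
    show fderiv ℝ (fun z => ρ i ((c i).symm z)) y (W i x y)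
      = ∑ k, ρ k ((c i).symm y) * fderiv ℝ (fun z => ρ i ((c i).symm z)) y (W i x y)
    rw [← Finset.sum_mul, hρ1, one_mul]
  have h2 : ∀ k x, ∑ i, Phi c (fun i => W i x) ρ i k = 0 := by
    intro k x
    have hP := fun i => (summ_phi c hc ρ hρ hρs W hW hsum i k (subset_refl (c k).target)).1 x
    unfold Phi
    rw [← integral_finsetSum _ (fun i _ => hP i)]
    have hz : ∀ y ∈ (c k).target, ∑ i, ρ k ((c k).symm y)
        * fderiv ℝ (fun z => ρ i ((c k).symm z)) y (W k x y) = 0 := by
      intro y hy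
      rw [← Finset.mul_sum]
      have hd : ∀ i, DifferentiableAt ℝ (fun z => ρ i ((c k).symm z)) y := fun i =>
        ((contDiffOn_symm (hc k) (hρ i)).contDiffAt
          ((c k).open_target.mem_nhds hy)).differentiableAt (by simp)
      have hs : ∑ i, fderiv ℝ (fun z => ρ i ((c k).symm z)) y = 0 := by
        rw [← fderiv_fun_sum (fun i _ => hd i)]
        have : (fun z => ∑ i, ρ i ((c k).symm z)) = fun _ => (1 : ℝ) := by
          funext z; exact hρ1 _
        rw [this]; simp
      have : ∑ i, fderiv ℝ (fun z => ρ i ((c k).symm z)) y (W k x y) = 0 := by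
        have h3 := congrArg (fun A : E4 →L[ℝ] ℝ => A (W k x y)) hs
        simpa using h3
      rw [this, mul_zero]
    rw [setIntegral_congr_fun (c k).open_target.measurableSet hz]
    simp
  constructor
  · intro i
    simp only [h1 i]
    exact (summable_sum fun k _ => hS1 i k).neg
  · calc ∑ i, ∑' x, ∫ y in (c i).target, ρ i ((c i).symm y) * dvg (W i x) y
        = ∑ i, ∑' x, - ∑ k, Psi c (fun i => W i x) ρ i k := by simp only [h1]
      _ = - ∑ i, ∑ k, ∑' x, Psi c (fun i => W i x) ρ i k := by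
          rw [← Finset.sum_neg_distrib]
          refine Finset.sum_congr rfl fun i _ => ?_
          rw [tsum_neg, Summable.tsum_finsetSum fun k _ => hS1 i k]
      _ = - ∑ i, ∑ k, ∑' x, Phi c (fun i => W i x) ρ i k := by
          congr 1
          exact Finset.sum_congr rfl fun i _ => Finset.sum_congr rfl fun k _ =>
            swap_cov c hc ρ hρ hρs σ W hW hcompat hsum i k
      _ = 0 := by
          rw [Finset.sum_comm, Finset.sum_eq_zero fun k _ => ?_, neg_zero]
          rw [← Summable.tsum_finsetSum fun i _ => hS2 i k]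
          simp only [h2 k]
          simp

end Manifold

/-- STOKES ON A COVERING, the frame of helper8 -/
theorem core_cov {X : Type} [TopologicalSpace X] [CompactSpace X] [ChartedSpace E4 X]
    [IsManifold 𝓘(ℝ, E4) ∞ X] {ι : Type} [Fintype ι] (c : ι → OpenPartialHomeomorph X E4)
    (hc : ∀ i, c i ∈ IsManifold.maximalAtlas 𝓘(ℝ, E4) ∞ X)
    (ρ : ι → X → ℝ) (hρ : ∀ i, ContMDiff 𝓘(ℝ, E4) 𝓘(ℝ, ℝ) ∞ (ρ i))
    (hρs : ∀ i, tsupport (ρ i) ⊆ (c i).source) (hρ1 : ∀ x, ∑ i, ρ i x = 1)
    {S : Type} [Countable S] (σ : ι → ι → E4 → Equiv.Perm S)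
    (W : ι → S → E4 → E4) (hW : ∀ i x, ContDiffOn ℝ 1 (W i x) (c i).target)
    (hcompat : ∀ i j, ∀ y ∈ (c j).target, (c j).symm y ∈ (c i).source →
      0 < (fderiv ℝ (c i ∘ (c j).symm) y).det ∧ ∀ x,
      fderiv ℝ (c i ∘ (c j).symm) y (W j x y)
        = (fderiv ℝ (c i ∘ (c j).symm) y).det • W i (σ i j y x) (c i ((c j).symm y)))
    (hsum : ∀ i, ∀ K ⊆ (c i).target, IsCompact K → Summable fun x => ∫ y in K, ‖W i x y‖) :
    (∀ i, Summable fun x =>
      ∫ y in (c i).target, ρ i ((c i).symm y) * Pool.Agent.Helper64.DC.dvg (W i x) y) ∧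
    ∑ i, ∑' x, ∫ y in (c i).target, ρ i ((c i).symm y) * Pool.Agent.Helper64.DC.dvg (W i x) y = 0 :=
  core_aux c hc ρ hρ hρs σ W hW hcompat hsum hρ1

end Pool.Agent.Helper81.UC
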